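import Pool.Agent.H78.XQ.Targets

/-!
# EXA. The algorithm is exact if the correction string fits
-/

set_option autoImplicit false

namespace Pool.Agent.H16.XQ

open Finset Pool.Agent.H6.NB Pool.Agent.H70.OQ Pool.Agent.H70.EH Pool.Agent.H70.EI
open Pool.Agent.H78.XQ

theorem exa (hPOW : T_POW) (hMIX : T_MIX) (hGRO : T_GRO) (hONE : Pool.Agent.H78.XQ.T_ONE)
    (hCOI : T_COI) : T_EXA := by
  intro O s b hF
  have hT : (mix (Pool.Agent.H78.XQ.pow (one s) (rns s)) (coin s (wln s))).T = 2 := rfl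
  have h1 : (mix (Pool.Agent.H78.XQ.pow (one s) (rns s)) (coin s (wln s))).prob O =
      (if b then 1 / 4 else 3 / 4) := by
    rw [hMIX (Pool.Agent.H78.XQ.pow (one s) (rns s)) (coin s (wln s)) rfl O, hPOW, hONE, hCOI]
    have h2 : (nt (fun z : Fin (wln s) → Bool => O (wps s (List.ofFn z))) : ℝ) / 2 ^ wln s =
        (if b then 1 / 2 else 3 / 2) - (1 - avg (qs s) (cps O s)) ^ rns s := hF
    rw [h2]
    cases b <;> norm_num
  have h3 : (exact s).prob O = (3 - 4 * (mix (Pool.Agent.H78.XQ.pow (one s) (rns s))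
      (coin s (wln s))).prob O) ^ 2 * (mix (Pool.Agent.H78.XQ.pow (one s) (rns s))
      (coin s (wln s))).prob O := hGRO _ (by rw [hT]; norm_num) O
  rw [h3, h1]
  cases b <;> norm_num

end Pool.Agent.H16.XQ
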